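import Pool.Agent.Helper454.BiorthCK
import Pool.Agent.Helper454.BiorthPIDb

/-!
# Under PID, `𝔟 = ℵ₂` is equivalent to (1) within three natural classes of Banach spaces
-/

namespace Pool.Agent.Results.MP_d107a2_lc.AsplundEquivalence

open Pool.Agent.Helper454.Biorth

/-- Main result. -/
theorem result (hPID : PID) (𝕜 : Type) [RCLike 𝕜] : List.TFAE
    [bounding = Cardinal.aleph 2,
      ∀ (X : Type) [NormedAddCommGroup X] [NormedSpace 𝕜 X] [CompleteSpace X],
        ¬ TopologicalSpace.SeparableSpace X → IsSeqCompact (dualBall 𝕜 X) →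
          HasUncountableBiorthogonalSystem 𝕜 X,
      ∀ (X : Type) [NormedAddCommGroup X] [NormedSpace 𝕜 X] [CompleteSpace X],
        ¬ TopologicalSpace.SeparableSpace X → IsAsplund 𝕜 X →
          HasUncountableBiorthogonalSystem 𝕜 X,
      ∀ (K : Type) [TopologicalSpace K] [CompactSpace K] [T2Space K] [SeqCompactSpace K],
        ¬ TopologicalSpace.MetrizableSpace K →
          HasUncountableBiorthogonalSystem 𝕜 C(K, 𝕜)] := by
  have hlt : bounding = Cardinal.aleph 2 → Cardinal.aleph 1 < bounding := by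
    intro h
    rw [h, aleph_two_eq]
    exact Order.lt_succ _
  have hback : ¬ bounding = Cardinal.aleph 2 → Nonempty TodData := by
    intro h
    apply exists_todData
    have h1 := lt_of_le_of_ne (bounding_le_of_PID hPID) h
    exact Order.lt_succ_iff.1 (h1.trans_eq aleph_two_eq)
  tfae_have 1 → 2 := by
    intro h X _ _ _ hX hs
    exact hasUncountable_of_isSeqCompact_dualBall hPID (hlt h) hX hs
  tfae_have 2 → 3 := by
    intro h X _ _ _ hX hA
    exact h X hX (isSeqCompact_dualBall_of_isAsplund hA)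
  tfae_have 3 → 1 := by
    intro h
    by_contra hcon
    obtain ⟨D⟩ := hback hcon
    exact D.no_biorthogonal 𝕜 (h C(D.Kc, 𝕜) (D.nonseparable 𝕜) (D.isAsplund 𝕜))
  tfae_have 1 → 4 := by
    intro h K _ _ _ _ hK
    exact hasUncountable_CK hPID (hlt h) hK
  tfae_have 4 → 1 := by
    intro h
    by_contra hcon
    obtain ⟨D⟩ := hback hcon
    have := seqCompactSpace_of_dualBall (isSeqCompact_dualBall_of_isAsplund (D.isAsplund 𝕜))
    exact D.no_biorthogonal 𝕜 (h D.Kc D.not_metrizable)
  tfae_finish

end Pool.Agent.Results.MP_d107a2_lc.AsplundEquivalence
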