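import Pool.Agent.Helper454.BiorthAll

/-!
# PID implies (1) `↔` (2), except possibly when `𝔟 = ℵ₂` and `𝔰 = cov(closed null) = ℵ₁`
-/

namespace Pool.Agent.Results.MP_d107a2_lc.ExceptionalModels

open Pool.Agent.Helper454.Biorth

/-- Main result. -/
theorem result (hPID : PID) (𝕜 : Type) [RCLike 𝕜] :
    ((∀ (X : Type) [NormedAddCommGroup X] [NormedSpace 𝕜 X] [CompleteSpace X],
      ¬ TopologicalSpace.SeparableSpace X → HasUncountableBiorthogonalSystem 𝕜 X) ↔
        bounding = Cardinal.aleph 2) ∨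
    (bounding = Cardinal.aleph 2 ∧ splittingNumber ≤ Cardinal.aleph 1 ∧
      covClosedNull ≤ Cardinal.aleph 1) := by
  by_cases h : bounding = Cardinal.aleph 2
  · have hb : Cardinal.aleph 1 < bounding := by
      rw [h, aleph_two_eq]
      exact Order.lt_succ _
    by_cases hc : Cardinal.aleph 1 < splittingNumber ∨ Cardinal.aleph 1 < covClosedNull
    · left
      exact iff_of_true (fun X _ _ _ hX => hasUncountable_all hPID hb hc hX) h
    · right
      rw [not_or, not_lt, not_lt] at hc
      exact ⟨h, hc.1, hc.2⟩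
  · left
    refine iff_of_false (fun h1 => ?_) h
    have h2 := lt_of_le_of_ne (bounding_le_of_PID hPID) h
    obtain ⟨D⟩ : Nonempty TodData :=
      exists_todData (Order.lt_succ_iff.1 (h2.trans_eq aleph_two_eq))
    exact D.no_biorthogonal 𝕜 (h1 C(D.Kc, 𝕜) (D.nonseparable 𝕜))

end Pool.Agent.Results.MP_d107a2_lc.ExceptionalModels
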