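import Pool.Agent.Helper454.BiorthChar2

/-!
# Uncountable biorthogonal systems and operators with nonseparable range, under PID and `ℵ₁ < 𝔟`
-/

namespace Pool.Agent.Results.MP_d107a2_lc.OperatorCriterion

open Pool.Agent.Helper454.Biorth Filter Topology
open scoped ZeroAtInfty

universe u

/-- Main result. -/
theorem result (hPID : PID) (hb : Cardinal.aleph 1 < bounding) {𝕜 : Type} [RCLike 𝕜]
    {X : Type u} [NormedAddCommGroup X] [NormedSpace 𝕜 X] [CompleteSpace X] : List.TFAE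
    [HasUncountableBiorthogonalSystem 𝕜 X,
      ∃ Y : Submodule 𝕜 X, IsClosed (Y : Set X) ∧ ∃ (Γ : Type u) (_ : TopologicalSpace Γ)
        (_ : DiscreteTopology Γ) (T : Y →L[𝕜] C₀(Γ, 𝕜)),
        ¬ TopologicalSpace.IsSeparable (Set.range T),
      ∃ Y : Submodule 𝕜 X, IsClosed (Y : Set X) ∧ ∃ (E : Type u) (_ : NormedAddCommGroup E)
        (_ : NormedSpace 𝕜 E) (_ : CompleteSpace E) (T : Y →L[𝕜] E),
        IsSeqCompact (dualBall 𝕜 E) ∧ ¬ TopologicalSpace.IsSeparable (Set.range T),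
      ∃ Y : Submodule 𝕜 X, IsClosed (Y : Set X) ∧ ∃ H : Set (WeakDual 𝕜 Y),
        (∀ f : ℕ → WeakDual 𝕜 Y, (∀ n, f n ∈ H) → ∃ g : WeakDual 𝕜 Y, ∃ φ : ℕ → ℕ,
          StrictMono φ ∧ Tendsto (f ∘ φ) atTop (𝓝 g)) ∧
        ∀ C : Set Y, C.Countable → ∃ f ∈ H, ∃ g ∈ H, f ≠ g ∧ ∀ y ∈ C, f y = g y] :=
  characterisation' hPID hb

end Pool.Agent.Results.MP_d107a2_lc.OperatorCriterion
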